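import Pool.Agent.Lib.MP_16285c_agN.DEG4a.Spec

/-!
# The degree of the restriction to a curve
-/

set_option autoImplicit false

namespace Pool.Agent.Lib.MP_16285c_agN

open Pool.Agent.Lib.MP_16285c_ag

namespace DegM

section

variable {n : ℕ} {K : Type} [Field K]

private theorem fr_inj {N M : Pl n K} (h : fr N = fr M) : N = M :=
  IsFractionRing.injective (MvPolynomial (Fin n) K) (FractionRing (MvPolynomial (Fin n) K)) h

private theorem fr_ne {G : Pl n K} (h : G ≠ 0) : fr G ≠ 0 := by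
  intro h0
  exact h (fr_inj (h0.trans (map_zero _).symm))

private theorem fr_mul (N M : Pl n K) : fr (N * M) = fr N * fr M := map_mul _ _ _

private theorem fr_add (N M : Pl n K) : fr (N + M) = fr N + fr M := map_add _ _ _

private theorem fr_pow (N : Pl n K) (n : ℕ) : fr (N ^ n) = fr N ^ n := map_pow _ _ _

private theorem fr_zero : fr (0 : Pl n K) = 0 := map_zero _

private theorem fr_one : fr (1 : Pl n K) = 1 := map_one _

variable {P : Pl n K} {L : Type} [Field L] [Algebra (CR (Ideal.span {P})) L] [IsFractionRing (CR (Ideal.span {P})) L]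

variable (P L) in
/-- The residue of a polynomial. -/
private noncomputable def res : Pl n K →+* L := (algebraMap (CR (Ideal.span {P})) L).comp (Ideal.Quotient.mk _)

private theorem res_eq_zero {N : Pl n K} : res P L N = 0 ↔ P ∣ N := by
  rw [← Ideal.mem_span_singleton, ← Ideal.Quotient.eq_zero_iff_mem]
  change algebraMap (CR (Ideal.span {P})) L (Ideal.Quotient.mk _ N) = 0 ↔ _
  rw [map_eq_zero_iff _ (IsFractionRing.injective (CR (Ideal.span {P})) L)]

omit [IsFractionRing (CR (Ideal.span {P})) L] in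
private theorem rsd_iff (g : RF n K) (u : L) : Rsd (Ideal.span {P}) L g u ↔
    ∃ N E : Pl n K, ¬ P ∣ E ∧ g * fr E = fr N ∧ u * res P L E = res P L N := by
  have h : ∀ E : Pl n K, (¬ P ∣ E) = (E ∉ Ideal.span {P}) := fun E => by
    rw [Ideal.mem_span_singleton]
  simp only [h]
  exact Iff.rfl

private theorem rsd_fr (hP : Irreducible P) (N : Pl n K) : Rsd (Ideal.span {P}) L (fr N) (res P L N) := by
  rw [rsd_iff]
  refine ⟨N, 1, fun h => hP.not_isUnit (isUnit_of_dvd_one h), ?_, ?_⟩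
  · rw [fr_one, mul_one]
  · rw [map_one, mul_one]

private theorem rsd_add (hP : Irreducible P) {g g' : RF n K} {u u' : L} (h : Rsd (Ideal.span {P}) L g u)
    (h' : Rsd (Ideal.span {P}) L g' u') : Rsd (Ideal.span {P}) L (g + g') (u + u') := by
  rw [rsd_iff] at h h' ⊢
  obtain ⟨N, E, hE, h1, h2⟩ := h
  obtain ⟨N', E', hE', h1', h2'⟩ := h'
  refine ⟨N * E' + N' * E, E * E', fun hd => ?_, ?_, ?_⟩
  · rcases hP.prime.dvd_or_dvd hd with hd | hd
    exacts [hE hd, hE' hd]
  · rw [fr_add, fr_mul, fr_mul, fr_mul, ← h1, ← h1']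
    ring
  · rw [map_add, map_mul, map_mul, map_mul, ← h2, ← h2']
    ring

private theorem rsd_mul (hP : Irreducible P) {g g' : RF n K} {u u' : L} (h : Rsd (Ideal.span {P}) L g u)
    (h' : Rsd (Ideal.span {P}) L g' u') : Rsd (Ideal.span {P}) L (g * g') (u * u') := by
  rw [rsd_iff] at h h' ⊢
  obtain ⟨N, E, hE, h1, h2⟩ := h
  obtain ⟨N', E', hE', h1', h2'⟩ := h'
  refine ⟨N * N', E * E', fun hd => ?_, ?_, ?_⟩
  · rcases hP.prime.dvd_or_dvd hd with hd | hd
    exacts [hE hd, hE' hd]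
  · rw [fr_mul, fr_mul, ← h1, ← h1']
    ring
  · rw [map_mul, map_mul, ← h2, ← h2']
    ring

private theorem rsd_unique {g : RF n K} {u u' : L} (h : Rsd (Ideal.span {P}) L g u)
    (h' : Rsd (Ideal.span {P}) L g u') : u = u' := by
  rw [rsd_iff] at h h'
  obtain ⟨N, E, hE, h1, h2⟩ := h
  obtain ⟨N', E', hE', h1', h2'⟩ := h'
  have h3 : N * E' = N' * E := by
    apply fr_inj
    rw [fr_mul, fr_mul, ← h1, ← h1']
    ring
  have h4 := congrArg (res P L) h3
  rw [map_mul, map_mul, ← h2, ← h2'] at h4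
  have h5 : res P L E ≠ 0 := fun h0 => hE (res_eq_zero.1 h0)
  have h6 : res P L E' ≠ 0 := fun h0 => hE' (res_eq_zero.1 h0)
  apply mul_right_cancel₀ (mul_ne_zero h5 h6)
  linear_combination h4

private theorem rsd_sum (hP : Irreducible P) {ι : Type} (s : Finset ι) (g : ι → RF n K) (u : ι → L)
    (h : ∀ i, Rsd (Ideal.span {P}) L (g i) (u i)) : Rsd (Ideal.span {P}) L (∑ i ∈ s, g i) (∑ i ∈ s, u i) := by
  classical
  induction s using Finset.induction_on with
  | empty =>
    rw [Finset.sum_empty, Finset.sum_empty]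
    have := rsd_fr (L := L) hP 0
    rwa [fr_zero, map_zero] at this
  | insert a s ha ih =>
    rw [Finset.sum_insert ha, Finset.sum_insert ha]
    exact rsd_add hP (h a) ih

private theorem div_pow (hP : Irreducible P) {ι : Type} (C : ι → Pl n K) (i0 : ι) (h0 : C i0 ≠ 0) :
    ∃ (k : ℕ) (C' : ι → Pl n K), (∀ i, C i = P ^ k * C' i) ∧ ∃ i, ¬ P ∣ C' i := by
  classical
  obtain ⟨n, hn⟩ : ∃ n, ¬ P ^ (n + 1) ∣ C i0 :=
    FiniteMultiplicity.of_not_isUnit hP.not_isUnit h0
  have hex : ∃ n, ¬ ∀ i, P ^ (n + 1) ∣ C i := ⟨n, fun h => hn (h i0)⟩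
  have hk := Nat.find_spec hex
  have hmin := fun j => Nat.find_min hex (m := j)
  set k := Nat.find hex
  have h1 : ∀ i, P ^ k ∣ C i := by
    rcases Nat.eq_zero_or_pos k with h | h
    · intro i
      rw [h, pow_zero]
      exact one_dvd _
    · have := hmin (k - 1) (by omega)
      push Not at this
      rwa [Nat.sub_add_cancel h] at this
  choose C' hC' using h1
  refine ⟨k, C', hC', ?_⟩
  push Not at hk
  obtain ⟨i, hi⟩ := hk
  refine ⟨i, fun h => hi ?_⟩
  rw [hC' i, pow_succ]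
  exact mul_dvd_mul_left _ h

variable [Algebra K L]

/-- The main step. -/
private theorem core (hP : Irreducible P) {ρ : RF n K →ₐ[K] RF n K} {ρb : L →ₐ[K] L}
    (hρ : ∀ (g : RF n K) (u : L), Rsd (Ideal.span {P}) L g u → Rsd (Ideal.span {P}) L (ρ g) (ρb u)) {ι : Type} [Fintype ι]
    (B : ι → Pl n K) (hB : ∀ c : ι → L, ∑ i, ρb (c i) * res P L (B i) = 0 → ∀ i, c i = 0)
    (C : ι → Pl n K) (D : Pl n K) (h : ρ (fr D) * fr P = ∑ i, ρ (fr (C i)) * fr (B i)) (i : ι) :
    P ∣ C i := by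
  have h1 : Rsd (Ideal.span {P}) L (ρ (fr D) * fr P) (ρb (res P L D) * res P L P) :=
    rsd_mul hP (hρ _ _ (rsd_fr hP D)) (rsd_fr hP P)
  have h2 : Rsd (Ideal.span {P}) L (∑ i, ρ (fr (C i)) * fr (B i)) (∑ i, ρb (res P L (C i)) * res P L (B i)) :=
    rsd_sum hP _ _ _ fun i => rsd_mul hP (hρ _ _ (rsd_fr hP (C i))) (rsd_fr hP (B i))
  rw [h] at h1
  have h3 := rsd_unique h1 h2
  rw [res_eq_zero.2 (dvd_refl P), mul_zero] at h3
  exact res_eq_zero.1 (hB _ h3.symm i)

private theorem clear_den {ι : Type} [Finite ι] (c : ι → RF n K) :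
    ∃ (D : Pl n K) (C : ι → Pl n K), D ≠ 0 ∧ ∀ i, fr D * c i = fr (C i) := by
  obtain ⟨b, hb⟩ := IsLocalization.exist_integer_multiples_of_finite
    (nonZeroDivisors (MvPolynomial (Fin n) K)) (S := RF n K) c
  choose C hC using hb
  refine ⟨b, C, nonZeroDivisors.coe_ne_zero b, fun i => ?_⟩
  have := hC i
  rw [Algebra.smul_def] at this
  exact this.symm

private theorem linIndep (hP : Irreducible P) {ρ : RF n K →ₐ[K] RF n K} {ρb : L →ₐ[K] L}
    (hρ : ∀ (g : RF n K) (u : L), Rsd (Ideal.span {P}) L g u → Rsd (Ideal.span {P}) L (ρ g) (ρb u)) {ι : Type} [Fintype ι]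
    (B : ι → Pl n K) (hB : ∀ c : ι → L, ∑ i, ρb (c i) * res P L (B i) = 0 → ∀ i, c i = 0) :
    LinearIndependent ρ.fieldRange (fun i => fr (B i)) := by
  rw [Fintype.linearIndependent_iff]
  intro g hg i0
  have hg' : ∀ i, ∃ c : RF n K, ρ c = (g i : RF n K) := fun i => (g i).2
  choose c hc using hg'
  obtain ⟨D, C, hD, hC⟩ := clear_den c
  have h1 : ∑ i, ρ (fr (C i)) * fr (B i) = 0 := by
    have : ∑ i, ρ (fr (C i)) * fr (B i) = ρ (fr D) * ∑ i, g i • fr (B i) := by
      rw [Finset.mul_sum]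
      refine Finset.sum_congr rfl fun i _ => ?_
      rw [← hC i, map_mul, hc i, Algebra.smul_def]
      exact mul_assoc _ _ _
    rw [this, hg, mul_zero]
  by_contra hne
  have hC0 : C i0 ≠ 0 := by
    intro h0
    have h2 := hC i0
    rw [h0, fr_zero] at h2
    rcases mul_eq_zero.1 h2 with h2 | h2
    · exact fr_ne hD h2
    · apply hne
      apply Subtype.ext
      rw [← hc i0, h2, map_zero]
      rfl
  obtain ⟨k, C', hC', i1, hi1⟩ := div_pow hP C i0 hC0
  have h2 : ∑ i, ρ (fr (C' i)) * fr (B i) = 0 := by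
    have h3 : ρ (fr P) ^ k ≠ 0 := by
      apply pow_ne_zero
      rw [Ne, map_eq_zero_iff ρ ρ.injective]
      exact fr_ne hP.ne_zero
    apply (mul_eq_zero.1 _).resolve_left h3
    rw [Finset.mul_sum, ← h1]
    refine Finset.sum_congr rfl fun i _ => ?_
    rw [hC' i, fr_mul, fr_pow, map_mul, map_pow]
    ring
  refine hi1 (core hP hρ B hB C' 0 ?_ i1)
  rw [h2, fr_zero, map_zero, zero_mul]

private theorem lift (hP : Irreducible P) {ρb : L →ₐ[K] L} {ι : Type} [Fintype ι]
    (b : ι → L) (hb : LinearIndependent ρb.fieldRange b) :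
    ∃ B : ι → Pl n K, ∀ c : ι → L, ∑ i, ρb (c i) * res P L (B i) = 0 → ∀ i, c i = 0 := by
  have hprime : (Ideal.span {P} : Ideal (Pl n K)).IsPrime :=
    (Ideal.span_singleton_prime hP.ne_zero).2 hP.prime
  have : IsDomain (CR (Ideal.span {P})) := (Ideal.Quotient.isDomain_iff_prime _).2 hprime
  obtain ⟨d, hd⟩ := IsLocalization.exist_integer_multiples_of_finite
    (nonZeroDivisors (CR (Ideal.span {P}))) (S := L) b
  choose q hq using hd
  choose B hB using fun i => Ideal.Quotient.mk_surjective (q i)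
  refine ⟨B, fun c hc i => ?_⟩
  have hd0 : algebraMap (CR (Ideal.span {P})) L d ≠ 0 := by
    rw [Ne, map_eq_zero_iff _ (IsFractionRing.injective (CR (Ideal.span {P})) L)]
    exact nonZeroDivisors.coe_ne_zero d
  have h1 : ∀ i, res P L (B i) = algebraMap (CR (Ideal.span {P})) L d * b i := by
    intro i
    change algebraMap (CR (Ideal.span {P})) L (Ideal.Quotient.mk _ (B i)) = _
    rw [hB, hq i, Algebra.smul_def]
  have h2 : ∑ i, (⟨ρb (c i), ⟨c i, rfl⟩⟩ : ρb.fieldRange) • b i = 0 := by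
    apply (mul_eq_zero.1 _).resolve_left hd0
    rw [← hc, Finset.mul_sum]
    refine Finset.sum_congr rfl fun i _ => ?_
    rw [h1, Algebra.smul_def]
    change algebraMap (CR (Ideal.span {P})) L d * (ρb (c i) * b i) = _
    ring
  have h3 := congrArg Subtype.val (Fintype.linearIndependent_iff.1 hb _ h2 i)
  exact (map_eq_zero_iff ρb ρb.injective).1 h3

end

end DegM

open DegM in
theorem stmtDeg : StmtDeg := by
  intro n K _ ρ P hP hT L _ _ _ _ _ ρb hρ
  have hfin : Module.Finite ρ.fieldRange (RF n K) := Module.finite_of_finrank_pos hT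
  have hcard : ∀ s : Finset L, (LinearIndependent ρb.fieldRange fun i : s => (i : L)) →
      s.card ≤ tp ρ := by
    intro s hs
    obtain ⟨B, hB⟩ := lift hP _ hs
    have h1 := (linIndep hP hρ B hB).fintype_card_le_finrank
    rwa [Fintype.card_coe] at h1
  have hrank := rank_le hcard
  have hfinL : Module.Finite ρb.fieldRange L :=
    Module.rank_lt_aleph0_iff.1 (hrank.trans_lt (Cardinal.natCast_lt_aleph0 ..))
  refine ⟨hfinL, Module.finrank_le_of_rank_le hrank, fun heq => ?_⟩
  obtain ⟨B, hB⟩ := lift hP _ (Module.finBasis ρb.fieldRange L).linearIndependent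
  have hli := linIndep hP hρ B hB
  have hspan := hli.span_eq_top_of_card_eq_finrank' (by rw [Fintype.card_fin]; exact heq)
  have hPmem : fr P ∈ Submodule.span ρ.fieldRange (Set.range fun i => fr (B i)) := by
    rw [hspan]
    exact Submodule.mem_top
  rw [Submodule.mem_span_range_iff_exists_fun] at hPmem
  obtain ⟨g, hg⟩ := hPmem
  have hg' : ∀ i, ∃ c : RF n K, ρ c = (g i : RF n K) := fun i => (g i).2
  choose c hc using hg'
  obtain ⟨D, C, hD, hC⟩ := clear_den c
  have h1 : ρ (fr D) * fr P = ∑ i, ρ (fr (C i)) * fr (B i) := by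
    rw [← hg, Finset.mul_sum]
    refine Finset.sum_congr rfl fun i _ => ?_
    rw [← hC i, map_mul, hc i, Algebra.smul_def]
    exact (mul_assoc _ _ _).symm
  obtain ⟨k, F, hF, i1, hi1⟩ := div_pow hP
    (fun o : Option (Fin (Module.finrank ρb.fieldRange L)) => o.elim D C) none hD
  have h2 : ρ (fr (F none)) * fr P = ∑ i, ρ (fr (F (some i))) * fr (B i) := by
    have h3 : ρ (fr P) ^ k ≠ 0 := by
      apply pow_ne_zero
      rw [Ne, map_eq_zero_iff ρ ρ.injective]
      exact fr_ne hP.ne_zero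
    apply mul_left_cancel₀ h3
    have hD' : D = P ^ k * F none := hF none
    have hC' : ∀ i, C i = P ^ k * F (some i) := fun i => hF (some i)
    rw [hD', fr_mul, fr_pow, map_mul, map_pow] at h1
    rw [← mul_assoc, h1, Finset.mul_sum]
    refine Finset.sum_congr rfl fun i _ => ?_
    rw [hC' i, fr_mul, fr_pow, map_mul, map_pow]
    ring
  have h3 : ∀ i, P ∣ F (some i) := core hP hρ B hB _ _ h2
  choose a ha using h3
  have h4 : ¬ P ∣ F none := by
    intro h
    cases i1 with
    | none => exact hi1 h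
    | some i => exact hi1 ⟨a i, ha i⟩
  refine ⟨F none, ∑ i, ρ (fr (a i)) * fr (B i), h4, ?_, ?_⟩
  · refine Subalgebra.sum_mem _ fun i _ => Subalgebra.mul_mem _ ?_ ?_
    · exact Algebra.subset_adjoin (Or.inr ⟨a i, rfl⟩)
    · exact Algebra.subset_adjoin (Or.inl ⟨B i, rfl⟩)
  · rw [mul_comm, h2, Finset.mul_sum]
    refine Finset.sum_congr rfl fun i _ => ?_
    rw [ha i, fr_mul, map_mul]
    ring

end Pool.Agent.Lib.MP_16285c_agN
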