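import Mathlib

/-!
# Package DEG4a: a prime ideal whose residue field is large is principal

If all but one of the `a i` are algebraically independent over `K` then two relatively prime polynomials do not both
vanish at `a`.
-/

set_option autoImplicit false

namespace Pool.Agent.Lib.MP_16285c_agN

namespace GauM

/-- One variable: the kernel of an evaluation is generated by any prime element which it contains. -/
theorem core {S L : Type} [CommRing S] [IsDomain S] [Field L] (ψ : S →+* L)
    (hψ : Function.Injective ψ) (α : L) (p : Polynomial S) (hp : Prime p)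
    (hpα : p.eval₂ ψ α = 0) (q : Polynomial S) (hqα : q.eval₂ ψ α = 0) : p ∣ q := by
  let F := FractionRing S
  let ψF : F →+* L := IsFractionRing.lift hψ
  let _ : Algebra F L := ψF.toAlgebra
  have hψF : ∀ s : S, algebraMap F L (algebraMap S F s) = ψ s := fun s =>
    IsFractionRing.lift_algebraMap hψ s
  have hcomp : (algebraMap F L).comp (algebraMap S F) = ψ := RingHom.ext hψF
  have hev : ∀ r : Polynomial S, Polynomial.aeval α (r.map (algebraMap S F)) = r.eval₂ ψ α := by
    intro r
    rw [Polynomial.aeval_def, Polynomial.eval₂_map, hcomp]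
  have hinj : Function.Injective (Polynomial.map (algebraMap S F)) :=
    Polynomial.map_injective _ (IsFractionRing.injective S F)
  have hC : ∀ s : S, s ≠ 0 → ¬ p ∣ Polynomial.C s := by
    rintro s hs ⟨w, hw⟩
    have h1 := congrArg (Polynomial.eval₂ ψ α) hw
    rw [Polynomial.eval₂_C, Polynomial.eval₂_mul, hpα, zero_mul] at h1
    exact hs (hψ (by rw [h1, map_zero]))
  -- clearing denominators
  have hclear : ∀ r : Polynomial F, ∃ (s : S) (r' : Polynomial S), s ≠ 0 ∧
      r'.map (algebraMap S F) = Polynomial.C (algebraMap S F s) * r := by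
    intro r
    obtain ⟨b, hb, hb2⟩ := IsLocalization.integerNormalization_spec (nonZeroDivisors S) r
    refine ⟨b, IsLocalization.integerNormalization (nonZeroDivisors S) r,
      nonZeroDivisors.ne_zero hb, ?_⟩
    rw [hb2]
    ext i
    rw [Polynomial.coeff_smul, Polynomial.coeff_C_mul, Algebra.smul_def]
  have hint : IsIntegral F α := by
    refine isAlgebraic_iff_isIntegral.1 ⟨p.map (algebraMap S F), ?_, ?_⟩
    · intro h0
      exact hp.ne_zero (hinj (by rw [h0, Polynomial.map_zero]))
    · rw [hev]
      exact hpα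
  have hdvd : ∀ r : Polynomial S, r.eval₂ ψ α = 0 →
      minpoly F α ∣ r.map (algebraMap S F) := fun r hr =>
    minpoly.dvd F α (by rw [hev]; exact hr)
  obtain ⟨s1, m1, hs1, hm1⟩ := hclear (minpoly F α)
  have hm1d : 0 < m1.natDegree := by
    have h1 : (m1.map (algebraMap S F)).natDegree = m1.natDegree :=
      Polynomial.natDegree_map_eq_of_injective (IsFractionRing.injective S F) m1
    rw [← h1, hm1, Polynomial.natDegree_C_mul]
    · exact minpoly.natDegree_pos hint
    · intro h0
      exact hs1 (IsFractionRing.injective S F (by rw [h0, map_zero]))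
  -- every element of the kernel times a constant is a multiple of `m1`
  have hmul : ∀ r : Polynomial S, r.eval₂ ψ α = 0 →
      ∃ (s : S) (g : Polynomial S), s ≠ 0 ∧ m1 * g = Polynomial.C s * r := by
    intro r hr
    obtain ⟨g, hg⟩ := hdvd r hr
    obtain ⟨s2, g1, hs2, hg1⟩ := hclear g
    refine ⟨s1 * s2, g1, mul_ne_zero hs1 hs2, ?_⟩
    apply hinj
    rw [Polynomial.map_mul, Polynomial.map_mul, hm1, hg1, Polynomial.map_C, hg, map_mul,
      Polynomial.C_mul]
    ring
  have hpm : p ∣ m1 := by
    obtain ⟨s, g, hs, hg⟩ := hmul p hpα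
    have h1 : p ∣ m1 * g := by
      rw [hg]
      exact dvd_mul_left _ _
    rcases hp.dvd_or_dvd h1 with h2 | ⟨g', hg'⟩
    · exact h2
    · exfalso
      rw [hg'] at hg
      have h3 : m1 * g' = Polynomial.C s := by
        apply mul_left_cancel₀ hp.ne_zero
        linear_combination hg
      have hg0 : g' ≠ 0 := by
        rintro rfl
        rw [mul_zero] at h3
        exact hs (Polynomial.C_injective (by rw [← h3, map_zero]))
      have hm0 : m1 ≠ 0 := by
        rintro rfl
        simp at hm1d
      have h4 := congrArg Polynomial.natDegree h3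
      rw [Polynomial.natDegree_mul hm0 hg0, Polynomial.natDegree_C] at h4
      omega
  obtain ⟨s, g, hs, hg⟩ := hmul q hqα
  have h1 : p ∣ Polynomial.C s * q := by
    rw [← hg]
    exact hpm.mul_right _
  exact (hp.dvd_or_dvd h1).resolve_left (hC s hs)

variable {n : ℕ} {K : Type} [Field K] {L : Type} [Field L] [Algebra K L]

/-- The isomorphism which singles out one variable. -/
noncomputable def eq0 (K : Type) [Field K] (i0 : Fin n) : MvPolynomial (Fin n) K ≃ₐ[K]
    Polynomial (MvPolynomial {i : Fin n // i ≠ i0} K) :=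
  (MvPolynomial.renameEquiv K (Equiv.optionSubtypeNe i0).symm).trans
    (MvPolynomial.optionEquivLeft K {i : Fin n // i ≠ i0})

theorem ev_eq (i0 : Fin n) (a : Fin n → L) (G : MvPolynomial (Fin n) K) :
    (eq0 K i0 G).eval₂ (MvPolynomial.aeval (fun i : {i : Fin n // i ≠ i0} => a i) :
      MvPolynomial {i : Fin n // i ≠ i0} K →ₐ[K] L).toRingHom (a i0) = MvPolynomial.aeval a G := by
  induction G using MvPolynomial.induction_on with
  | C c =>
    rw [MvPolynomial.aeval_C]
    simp [eq0]
  | add p q hp hq => rw [map_add, map_add, Polynomial.eval₂_add, hp, hq]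
  | mul_X p i hp =>
    rw [map_mul, map_mul, Polynomial.eval₂_mul, hp, MvPolynomial.aeval_X]
    congr 1
    by_cases hi : i = i0
    · subst hi
      simp [eq0]
    · simp [eq0, Equiv.optionSubtypeNe_symm_of_ne hi]

/-- Two relatively prime polynomials do not both vanish at `a`. -/
theorem not_both (i0 : Fin n) (a : Fin n → L)
    (ha : AlgebraicIndependent K (fun i : {i : Fin n // i ≠ i0} => a i))
    (P h : MvPolynomial (Fin n) K) (hrel : IsRelPrime P h) (hP : MvPolynomial.aeval a P = 0)
    (hh : MvPolynomial.aeval a h = 0) : False := by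
  have hprime : (RingHom.ker (MvPolynomial.aeval a : MvPolynomial (Fin n) K →ₐ[K] L)).IsPrime :=
    RingHom.ker_isPrime _
  have hPm : P ∈ RingHom.ker (MvPolynomial.aeval a : MvPolynomial (Fin n) K →ₐ[K] L) := hP
  have hhm : h ∈ RingHom.ker (MvPolynomial.aeval a : MvPolynomial (Fin n) K →ₐ[K] L) := hh
  have hP0 : P ≠ 0 := by
    rintro rfl
    have hu : IsUnit h := hrel (dvd_zero h) dvd_rfl
    exact hprime.ne_top (Ideal.eq_top_of_isUnit_mem _ hhm hu)
  obtain ⟨f, hf, hfP⟩ := UniqueFactorizationMonoid.exists_prime_factors P hP0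
  have h1 : f.prod ∈ RingHom.ker (MvPolynomial.aeval a : MvPolynomial (Fin n) K →ₐ[K] L) := by
    obtain ⟨u, hu⟩ := hfP.symm
    rw [← hu]
    exact Ideal.mul_mem_right _ _ hPm
  obtain ⟨Q, hQf, hQm⟩ := (hprime.multiset_prod_mem_iff_exists_mem f).1 h1
  have hQ := hf Q hQf
  have hQP : Q ∣ P := (Multiset.dvd_prod hQf).trans hfP.dvd
  have hinj : Function.Injective (MvPolynomial.aeval (fun i : {i : Fin n // i ≠ i0} => a i) :
      MvPolynomial {i : Fin n // i ≠ i0} K →ₐ[K] L).toRingHom := ha
  have hQ' : Prime (eq0 K i0 Q) := (MulEquiv.prime_iff (eq0 K i0).toMulEquiv).2 hQ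
  have h2 : eq0 K i0 Q ∣ eq0 K i0 h := by
    refine core _ hinj (a i0) _ hQ' ?_ _ ?_
    · rw [ev_eq]
      exact hQm
    · rw [ev_eq]
      exact hh
  have h3 : Q ∣ h := by
    have h4 := map_dvd (eq0 K i0).symm h2
    rwa [AlgEquiv.symm_apply_apply, AlgEquiv.symm_apply_apply] at h4
  exact hQ.not_isUnit (hrel hQP h3)

end GauM

end Pool.Agent.Lib.MP_16285c_agN
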