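import Pool.Agent.Lib.MP_16285c_agN.DEG4a.Spec
import Pool.Agent.Lib.MP_16285c_agN.DEG4a.Gau

/-!
# Package DEG4a: a hypersurface whose image has codimension two divides the Jacobian
-/

set_option autoImplicit false

namespace Pool.Agent.Lib.MP_16285c_agN

open Pool.Agent.Lib.MP_16285c_ag

namespace JacQM

open MvPolynomial

/-- in characteristic zero a nonconstant polynomial has a nonzero derivative, of smaller degree -/
theorem exists_pderiv_lt {L : Type} [Field L] [CharZero L] {ι : Type} (P : MvPolynomial ι L)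
    (hP : P.totalDegree ≠ 0) :
    ∃ i, pderiv i P ≠ 0 ∧ (pderiv i P).totalDegree < P.totalDegree := by
  classical
  have hlt : ∀ i, pderiv i P ≠ 0 → (pderiv i P).totalDegree < P.totalDegree := by
    intro i hi
    rw [totalDegree, Finset.sup_lt_iff (Nat.pos_of_ne_zero hP)]
    intro e he
    rw [mem_support_iff, coeff_pderiv] at he
    have h1 : e + Finsupp.single i 1 ∈ P.support := by
      rw [mem_support_iff]
      exact left_ne_zero_of_mul he
    have h2 := le_totalDegree h1
    rw [Finsupp.sum_add_index' (by simp) (by simp), Finsupp.sum_single_index rfl] at h2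
    exact h2
  by_contra hcon
  push Not at hcon
  have h0 : ∀ i, pderiv i P = 0 := fun i => by
    by_contra hi
    exact absurd (hlt i hi) (not_lt.2 (hcon i hi))
  apply hP
  rw [totalDegree_eq_zero_iff]
  intro m hm i
  by_contra hmi
  have h1 := coeff_pderiv (i := i) P (m - Finsupp.single i 1)
  have h2 : m - Finsupp.single i 1 + Finsupp.single i 1 = m := by
    ext j
    by_cases hj : j = i
    · subst hj
      simp
      omega
    · simp [Ne.symm hj]
  rw [h0 i, coeff_zero, h2] at h1
  rw [mem_support_iff] at hm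
  rcases mul_eq_zero.1 h1.symm with h | h
  · exact hm h
  · norm_cast at h

/-- an irreducible polynomial does not divide all its derivatives -/
theorem exists_not_dvd {n : ℕ} {K : Type} [Field K] [CharZero K] (Q : Pl n K)
    (hQ : Irreducible Q) : ∃ i, ¬ Q ∣ pderiv i Q := by
  have hd : Q.totalDegree ≠ 0 := by
    intro h0
    rw [totalDegree_eq_zero_iff_eq_C] at h0
    by_cases hc : coeff 0 Q = 0
    · rw [hc, C_0] at h0
      exact hQ.ne_zero h0
    · apply hQ.not_isUnit
      rw [h0]
      exact (IsUnit.mk0 _ hc).map C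
  obtain ⟨i, hi, hlt⟩ := exists_pderiv_lt Q hd
  refine ⟨i, fun hdvd => ?_⟩
  obtain ⟨G, hG⟩ := hdvd
  have hG0 : G ≠ 0 := by
    rintro rfl
    rw [mul_zero] at hG
    exact hi hG
  have h1 := totalDegree_mul_of_isDomain hQ.ne_zero hG0
  rw [← hG] at h1
  omega

/-- Tangent vectors in all directions force algebraic independence. -/
theorem algInd {n : ℕ} {K : Type} [Field K] [CharZero K] {L : Type} [Field L] [Algebra K L]
    (a : Fin n → L) (i0 : Fin n)
    (hu : ∀ i1, i1 ≠ i0 → ∃ u : Fin n → L, u i1 ≠ 0 ∧ (∀ i, i ≠ i0 → i ≠ i1 → u i = 0) ∧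
      ∀ G : MvPolynomial (Fin n) K, aeval a G = 0 → ∑ i, u i * aeval a (pderiv i G) = 0) :
    AlgebraicIndependent K (fun i : {i : Fin n // i ≠ i0} => a i) := by
  classical
  by_contra hcon
  have hex : ∃ d : ℕ, ∃ G : MvPolynomial {i : Fin n // i ≠ i0} K, G ≠ 0 ∧
      aeval (fun i : {i : Fin n // i ≠ i0} => a i) G = 0 ∧ G.totalDegree = d := by
    rw [algebraicIndependent_iff] at hcon
    push Not at hcon
    obtain ⟨G, h1, h2⟩ := hcon
    exact ⟨_, G, h2, h1, rfl⟩
  obtain ⟨G, hG0, hG, hGd⟩ := Nat.find_spec hex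
  have hmin : ∀ H : MvPolynomial {i : Fin n // i ≠ i0} K,
      H ≠ 0 → H.totalDegree < G.totalDegree →
      aeval (fun i : {i : Fin n // i ≠ i0} => a i) H ≠ 0 := by
    intro H hH hd h0
    rw [hGd] at hd
    exact Nat.find_min hex hd ⟨H, hH, h0, rfl⟩
  have hd : G.totalDegree ≠ 0 := by
    intro h0
    rw [totalDegree_eq_zero_iff_eq_C] at h0
    rw [h0, aeval_C, FaithfulSMul.algebraMap_eq_zero_iff] at hG
    rw [hG, C_0] at h0
    exact hG0 h0
  obtain ⟨i, hi, hlt⟩ := exists_pderiv_lt G hd
  obtain ⟨u, hui, hu0, hu1⟩ := hu i.1 i.2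
  have hren : ∀ H : MvPolynomial {i : Fin n // i ≠ i0} K,
      aeval a (rename Subtype.val H) = aeval (fun i : {i : Fin n // i ≠ i0} => a i) H := by
    intro H
    rw [aeval_rename]
    rfl
  have h1 := hu1 (rename Subtype.val G) (by rw [hren]; exact hG)
  rw [Finset.sum_eq_single i.1] at h1
  · rw [pderiv_rename Subtype.val_injective, hren] at h1
    rcases mul_eq_zero.1 h1 with h2 | h2
    · exact hui h2
    · exact hmin _ hi hlt h2
  · intro j _ hj
    by_cases hj0 : j = i0
    · have h2 : pderiv j (rename Subtype.val G) = 0 := by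
        apply pderiv_eq_zero_of_notMem_vars
        intro hv
        have h3 := vars_rename Subtype.val G hv
        rw [Finset.mem_image] at h3
        obtain ⟨l, -, hl⟩ := h3
        exact l.2 (by rw [hl, hj0])
      rw [h2, map_zero, mul_zero]
    · rw [hu0 j hj0 hj, zero_mul]
  · intro h2
    exact absurd (Finset.mem_univ _) h2

/-- The chain rule along a tangent vector. -/
theorem chain {n : ℕ} {K : Type} [Field K] {L : Type} [Field L] [Algebra K L]
    (φ : Pl n K →ₐ[K] L) (Q : Pl n K) (hQ : ∀ G, φ G = 0 → Q ∣ G) (hQ0 : φ Q = 0)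
    (v : Fin n → L) (hv : ∑ j, v j * φ (pderiv j Q) = 0) (N D : Fin n → Pl n K)
    (hD : ∀ i, φ (D i) ≠ 0) (G : Pl n K)
    (hG : aeval (fun i => φ (N i) / φ (D i)) G = 0) :
    ∑ i, (∑ j, v j * φ (pderiv j (N i) * D i - N i * pderiv j (D i))) / φ (D i) ^ 2 *
      aeval (fun i => φ (N i) / φ (D i)) (pderiv i G) = 0 := by
  set a : Fin n → L := fun i => φ (N i) / φ (D i) with ha
  set u : Fin n → L := fun i =>
    (∑ j, v j * φ (pderiv j (N i) * D i - N i * pderiv j (D i))) / φ (D i) ^ 2 with hu
  let δ : Pl n K → L := fun H => ∑ j, v j * φ (pderiv j H)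
  have δadd : ∀ H H', δ (H + H') = δ H + δ H' := by
    intro H H'
    simp only [δ, map_add, mul_add, Finset.sum_add_distrib]
  have δmul : ∀ H H', δ (H * H') = δ H * φ H' + φ H * δ H' := by
    intro H H'
    simp only [δ, Finset.sum_mul, Finset.mul_sum, ← Finset.sum_add_distrib]
    refine Finset.sum_congr rfl fun j _ => ?_
    rw [pderiv_mul, map_add, map_mul, map_mul]
    ring
  have hNi : ∀ i, φ (N i) = a i * φ (D i) := fun i => (div_mul_cancel₀ _ (hD i)).symm
  have δN : ∀ i, δ (N i) = a i * δ (D i) + u i * φ (D i) := by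
    intro i
    have h1 : ∑ j, v j * φ (pderiv j (N i) * D i - N i * pderiv j (D i)) =
        δ (N i) * φ (D i) - φ (N i) * δ (D i) := by
      simp only [δ, Finset.sum_mul, Finset.mul_sum, ← Finset.sum_sub_distrib]
      refine Finset.sum_congr rfl fun j _ => ?_
      rw [map_sub, map_mul, map_mul]
      ring
    have h2 : u i = (δ (N i) * φ (D i) - φ (N i) * δ (D i)) / φ (D i) ^ 2 := by
      rw [← h1]
    have h3 := hD i
    rw [h2, hNi i]
    field_simp
    ring
  have key : ∀ H : Pl n K, ∃ E M : Pl n K, φ E ≠ 0 ∧ φ M = φ E * aeval a H ∧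
      δ M = δ E * aeval a H + φ E * ∑ i, u i * aeval a (pderiv i H) := by
    intro H
    induction H using MvPolynomial.induction_on with
    | C c =>
      refine ⟨1, C c, by rw [map_one]; exact one_ne_zero, ?_, ?_⟩
      · rw [map_one, one_mul, aeval_C]
        exact φ.commutes c
      · have h1 : ∀ j, pderiv j (1 : Pl n K) = 0 := fun j => pderiv_one
        simp [δ, h1]
    | add p q hp hq =>
      obtain ⟨E1, M1, hE1, h1, h1'⟩ := hp
      obtain ⟨E2, M2, hE2, h2, h2'⟩ := hq
      refine ⟨E1 * E2, M1 * E2 + M2 * E1, by rw [map_mul]; exact mul_ne_zero hE1 hE2, ?_, ?_⟩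
      · rw [map_add, map_mul, map_mul, map_mul, map_add, h1, h2]
        ring
      · have h3 : ∑ i, u i * aeval a (pderiv i (p + q)) =
            ∑ i, u i * aeval a (pderiv i p) + ∑ i, u i * aeval a (pderiv i q) := by
          simp only [map_add, mul_add, Finset.sum_add_distrib]
        rw [δadd, δmul, δmul, δmul, h1, h2, h1', h2', h3, map_add, map_mul]
        ring
    | mul_X p i hp =>
      obtain ⟨E1, M1, hE1, h1, h1'⟩ := hp
      refine ⟨E1 * D i, M1 * N i, by rw [map_mul]; exact mul_ne_zero hE1 (hD i), ?_, ?_⟩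
      · rw [map_mul, map_mul, map_mul, aeval_X, h1, hNi i]
        ring
      · have h3 : ∑ l, u l * aeval a (pderiv l (p * X i)) =
            (∑ l, u l * aeval a (pderiv l p)) * a i + aeval a p * u i := by
          have h4 : ∀ l, u l * aeval a (pderiv l (p * X i)) =
              u l * aeval a (pderiv l p) * a i + (if l = i then aeval a p * u l else 0) := by
            intro l
            rw [pderiv_mul, map_add, map_mul, map_mul, aeval_X]
            by_cases hl : l = i
            · subst hl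
              rw [pderiv_X_self, map_one, if_pos rfl]
              ring
            · rw [pderiv_X_of_ne (Ne.symm hl), map_zero, if_neg hl]
              ring
          rw [Finset.sum_congr rfl fun l _ => h4 l, Finset.sum_add_distrib, Finset.sum_mul,
            Finset.sum_ite_eq' Finset.univ i, if_pos (Finset.mem_univ i)]
        rw [δmul, δmul, h1, h1', h3, δN i, hNi i, map_mul, map_mul, aeval_X]
        ring
  obtain ⟨E, M, hE, h1, h2⟩ := key G
  rw [hG, mul_zero] at h1
  rw [hG, mul_zero, zero_add] at h2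
  obtain ⟨M', hM'⟩ := hQ M h1
  have h3 : δ M = 0 := by
    rw [hM', δmul, hQ0, zero_mul, add_zero]
    have h4 : δ Q = 0 := hv
    rw [h4, zero_mul]
  rw [h3] at h2
  exact (mul_eq_zero.1 h2.symm).resolve_left hE

end JacQM

open JacQM in
theorem stmtJacQ : StmtJacQ := by
  intro n K _ _ f ρ hf Q P h hQ hden hPh hDP hDh
  have hprime : Prime Q := hQ.prime
  have hpi : (Ideal.span {Q} : Ideal (MvPolynomial (Fin n) K)).IsPrime :=
    (Ideal.span_singleton_prime hQ.ne_zero).2 hprime
  have : IsDomain (MvPolynomial (Fin n) K ⧸ (Ideal.span {Q} : Ideal (MvPolynomial (Fin n) K))) :=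
    Ideal.Quotient.isDomain _
  -- the residue map
  let R := MvPolynomial (Fin n) K ⧸ (Ideal.span {Q} : Ideal (MvPolynomial (Fin n) K))
  let L := FractionRing R
  let φ : Pl n K →ₐ[K] L := (IsScalarTower.toAlgHom K R L).comp (Ideal.Quotient.mkₐ K _)
  have hφ0 : ∀ G : Pl n K, φ G = 0 ↔ Q ∣ G := by
    intro G
    have h1 : φ G = algebraMap R L (Ideal.Quotient.mk _ G) := rfl
    rw [h1, IsFractionRing.to_map_eq_zero_iff, Ideal.Quotient.eq_zero_iff_mem,
      Ideal.mem_span_singleton]
  let a : Fin n → L := fun i => φ (f.num i) / φ (f.den i)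
  have hden' : ∀ i, φ (f.den i) ≠ 0 := fun i h0 => hden i ((hφ0 _).1 h0)
  have frm : ∀ A B : Pl n K, (fr (A * B) : RF n K) = fr A * fr B := fun A B => map_mul _ A B
  have fra : ∀ A B : Pl n K, (fr (A + B) : RF n K) = fr A + fr B := fun A B => map_add _ A B
  have fr1 : (fr (1 : Pl n K) : RF n K) = 1 := map_one _
  have key : ∀ H : Pl n K, ∃ E N : Pl n K, ¬ Q ∣ E ∧ fr N = fr E * ρ (fr H) ∧
      φ N = φ E * MvPolynomial.aeval a H := by
    intro H
    induction H using MvPolynomial.induction_on with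
    | C c =>
      refine ⟨1, MvPolynomial.C c, hprime.not_dvd_one, ?_, ?_⟩
      · have h1 : (fr (MvPolynomial.C c) : RF n K) = algebraMap K (RF n K) c := by
          rw [IsScalarTower.algebraMap_apply K (MvPolynomial (Fin n) K) (RF n K)]
          rfl
        rw [h1, AlgHom.commutes, fr1, one_mul]
      · rw [map_one, one_mul, MvPolynomial.aeval_C]
        exact φ.commutes c
    | add p q hp hq =>
      obtain ⟨E1, N1, hE1, h1, h1'⟩ := hp
      obtain ⟨E2, N2, hE2, h2, h2'⟩ := hq
      refine ⟨E1 * E2, N1 * E2 + N2 * E1, fun hd => ?_, ?_, ?_⟩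
      · rcases hprime.dvd_or_dvd hd with h3 | h3
        · exact hE1 h3
        · exact hE2 h3
      · rw [fra, fra, frm, frm, frm, h1, h2, map_add]
        ring
      · rw [map_add, map_mul, map_mul, map_mul, map_add, h1', h2']
        ring
    | mul_X p i hp =>
      obtain ⟨E1, N1, hE1, h1, h1'⟩ := hp
      refine ⟨E1 * f.den i, N1 * f.num i, fun hd => ?_, ?_, ?_⟩
      · rcases hprime.dvd_or_dvd hd with h3 | h3
        · exact hE1 h3
        · exact hden i h3
      · have h2 := (hf i).2
        have h3 : gen n K i = fr (MvPolynomial.X i) := rfl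
        rw [h3] at h2
        rw [frm, frm, frm, h1, ← h2, map_mul]
        ring
      · have h4 : a i * φ (f.den i) = φ (f.num i) := div_mul_cancel₀ _ (hden' i)
        rw [map_mul, map_mul, map_mul, MvPolynomial.aeval_X, h1', ← h4]
        ring
  have hinj : Function.Injective (algebraMap (MvPolynomial (Fin n) K) (RF n K)) :=
    IsFractionRing.injective _ _
  have hvan : ∀ H : Pl n K, Dv Q (ρ (fr H)) → MvPolynomial.aeval a H = 0 := by
    intro H hH
    obtain ⟨E', N', hE', hN', hQN'⟩ := hH
    obtain ⟨E, N, hE, hN, hNφ⟩ := key H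
    have h1 : N * E' = E * N' := by
      apply hinj
      rw [map_mul, map_mul]
      change fr N * fr E' = fr E * fr N'
      rw [hN, hN']
      ring
    have h2 := congrArg φ h1
    rw [map_mul, map_mul, (hφ0 N').2 hQN', mul_zero] at h2
    have hE1 : φ E ≠ 0 := fun h0 => hE ((hφ0 _).1 h0)
    have hE2 : φ E' ≠ 0 := fun h0 => hE' ((hφ0 _).1 h0)
    have h3 : φ N = 0 := (mul_eq_zero.1 h2).resolve_right hE2
    rw [h3] at hNφ
    exact (mul_eq_zero.1 hNφ.symm).resolve_left hE1
  by_contra hj
  -- the Jacobian matrix is invertible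
  let W : Matrix (Fin n) (Fin n) L := Matrix.of fun i l => φ (wj f i l)
  have hW : W.det ≠ 0 := by
    intro h0
    apply hj
    rw [← hφ0]
    have h1 : φ (jac f) = W.det := by
      change φ.toRingHom ((Matrix.of fun i l => Pool.Agent.ZDO.Wd f i l).det) = W.det
      rw [RingHom.map_det]
      rfl
    rw [h1, h0]
  have hWu : IsUnit W.det := isUnit_iff_ne_zero.2 hW
  let g : Fin n → L := fun j => φ (MvPolynomial.pderiv j Q)
  have hg : g ≠ 0 := by
    obtain ⟨i, hi⟩ := exists_not_dvd Q hQ
    intro h0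
    exact hi ((hφ0 _).1 (congrFun h0 i))
  let ℓ : Fin n → L := Matrix.vecMul g W⁻¹
  have hℓ : Matrix.vecMul ℓ W = g := by
    rw [Matrix.vecMul_vecMul, Matrix.nonsing_inv_mul _ hWu, Matrix.vecMul_one]
  have hℓ0 : ℓ ≠ 0 := by
    intro h0
    apply hg
    rw [← hℓ, h0, Matrix.zero_vecMul]
  obtain ⟨i0, hi0⟩ := Function.ne_iff.1 hℓ0
  have hi0' : ℓ i0 ≠ 0 := hi0
  refine GauM.not_both i0 a (algInd a i0 fun i1 hi1 => ?_) P h hPh (hvan P hDP) (hvan h hDh)
  -- the tangent vector
  let w : Fin n → L := Pi.single i1 (ℓ i0) - Pi.single i0 (ℓ i1)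
  let v : Fin n → L := Matrix.mulVec W⁻¹ w
  have hWv : Matrix.mulVec W v = w := by
    rw [Matrix.mulVec_mulVec, Matrix.mul_nonsing_inv _ hWu, Matrix.one_mulVec]
  have hgv : ∑ j, v j * φ (MvPolynomial.pderiv j Q) = 0 := by
    have h1 : ∑ j, v j * φ (MvPolynomial.pderiv j Q) = dotProduct g v := by
      rw [dotProduct]
      exact Finset.sum_congr rfl fun j _ => mul_comm _ _
    rw [h1, ← hℓ, ← Matrix.dotProduct_mulVec, hWv]
    simp only [w, dotProduct_sub, dotProduct_single]
    ring
  have hrow : ∀ i, ∑ j, v j * φ (MvPolynomial.pderiv j (f.num i) * f.den i -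
      f.num i * MvPolynomial.pderiv j (f.den i)) = w i := by
    intro i
    rw [← hWv, Matrix.mulVec, dotProduct]
    exact Finset.sum_congr rfl fun j _ => mul_comm _ _
  refine ⟨fun i => w i / φ (f.den i) ^ 2, ?_, ?_, ?_⟩
  · apply div_ne_zero _ (pow_ne_zero _ (hden' i1))
    simp only [w, Pi.sub_apply, Pi.single_eq_same, Pi.single_eq_of_ne hi1, sub_zero]
    exact hi0'
  · intro i h1 h2
    simp only [w, Pi.sub_apply, Pi.single_eq_of_ne h1, Pi.single_eq_of_ne h2, sub_zero, zero_div]
  · intro G hG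
    have h1 := chain φ Q (fun G h => (hφ0 G).1 h) ((hφ0 Q).2 dvd_rfl) v hgv f.num f.den hden' G hG
    rw [← h1]
    refine Finset.sum_congr rfl fun i _ => ?_
    rw [hrow i]

end Pool.Agent.Lib.MP_16285c_agN
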