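import Pool.Agent.Lib.MP_16285c_agN.DEG4a.Spec

/-!
# Totally invariant curves
-/

set_option autoImplicit false

namespace Pool.Agent.Lib.MP_16285c_agN

open Pool.Agent.Lib.MP_16285c_ag

namespace TotM

section

variable {n : ℕ} {K : Type} [Field K]

private theorem fr_inj {N M : Pl n K} (h : fr N = fr M) : N = M :=
  IsFractionRing.injective (MvPolynomial (Fin n) K) (FractionRing (MvPolynomial (Fin n) K)) h

private theorem fr_ne {G : Pl n K} (h : G ≠ 0) : fr G ≠ 0 := by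
  intro h0
  exact h (fr_inj (h0.trans (map_zero _).symm))

private theorem fr_mul (N M : Pl n K) : fr (N * M) = fr N * fr M := map_mul _ _ _

private theorem fr_add (N M : Pl n K) : fr (N + M) = fr N + fr M := map_add _ _ _

private theorem fr_one : fr (1 : Pl n K) = 1 := map_one _

private theorem fr_C (c : K) : fr (MvPolynomial.C c) = algebraMap K (RF n K) c := by
  rw [IsScalarTower.algebraMap_apply K (MvPolynomial (Fin n) K) (RF n K)]
  rfl

variable {Q : Pl n K}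

private theorem rg_fr (hQ : Irreducible Q) (H : Pl n K) : Rg Q (fr H) :=
  ⟨1, H, fun h => hQ.not_isUnit (isUnit_of_dvd_one h), by rw [fr_one, one_mul]⟩

private theorem rg_add (hQ : Irreducible Q) {g g' : RF n K} (h : Rg Q g) (h' : Rg Q g') :
    Rg Q (g + g') := by
  obtain ⟨E, N, hE, h1⟩ := h
  obtain ⟨E', N', hE', h1'⟩ := h'
  refine ⟨E * E', N * E' + N' * E, fun hd => ?_, ?_⟩
  · rcases hQ.prime.dvd_or_dvd hd with hd | hd
    exacts [hE hd, hE' hd]
  · rw [fr_add, fr_mul, fr_mul, fr_mul, h1, h1']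
    ring

private theorem rg_mul (hQ : Irreducible Q) {g g' : RF n K} (h : Rg Q g) (h' : Rg Q g') :
    Rg Q (g * g') := by
  obtain ⟨E, N, hE, h1⟩ := h
  obtain ⟨E', N', hE', h1'⟩ := h'
  refine ⟨E * E', N * N', fun hd => ?_, ?_⟩
  · rcases hQ.prime.dvd_or_dvd hd with hd | hd
    exacts [hE hd, hE' hd]
  · rw [fr_mul, fr_mul, h1, h1']
    ring

private theorem rg_const (hQ : Irreducible Q) (c : K) : Rg Q (algebraMap K (RF n K) c) := by
  rw [← fr_C]
  exact rg_fr hQ _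

private theorem rg_image (hQ : Irreducible Q) {f : RM K n} {ρ : RF n K →ₐ[K] RF n K} (hf : Of f ρ)
    (hd : ∀ i, ¬ Q ∣ f.den i) (H : Pl n K) : Rg Q (ρ (fr H)) := by
  induction H using MvPolynomial.induction_on with
  | C a =>
    rw [fr_C, AlgHom.commutes]
    exact rg_const hQ a
  | add p q hp hq =>
    rw [fr_add, map_add]
    exact rg_add hQ hp hq
  | mul_X p i hp =>
    rw [fr_mul, map_mul]
    refine rg_mul hQ hp ⟨f.den i, f.num i, hd i, ?_⟩
    rw [← (hf i).2, mul_comm]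
    rfl

private theorem rg_Ad (hQ : Irreducible Q) {ρ : RF n K →ₐ[K] RF n K} (h : ∀ H : Pl n K, Rg Q (ρ (fr H)))
    {w : RF n K} (hw : w ∈ Ad ρ) : Rg Q w := by
  unfold Ad at hw
  induction hw using Algebra.adjoin_induction with
  | mem x hx =>
    rcases hx with ⟨H, rfl⟩ | ⟨H, rfl⟩
    · exact rg_fr hQ H
    · exact h H
  | algebraMap c => exact rg_const hQ c
  | add x y _ _ hx hy => exact rg_add hQ hx hy
  | mul x y _ _ hx hy => exact rg_mul hQ hx hy

private theorem relPrime {P h : Pl n K} (hP : Irreducible P) (hh : ¬ P ∣ h) : IsRelPrime P h := by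
  intro d hd hd'
  obtain ⟨c, hc⟩ := hd
  rcases hP.isUnit_or_isUnit hc with h1 | h1
  · exact h1
  · exfalso
    apply hh
    obtain ⟨u, hu⟩ := h1
    refine dvd_trans ?_ hd'
    rw [hc, ← hu]
    exact (Units.mul_right_dvd).2 dvd_rfl

private theorem reduced {g : RF n K} (hg : g ≠ 0) :
    ∃ a b : Pl n K, a ≠ 0 ∧ b ≠ 0 ∧ IsRelPrime a b ∧ fr b * g = fr a := by
  obtain ⟨a, b, hab, h⟩ := IsFractionRing.exists_reduced_fraction (A := MvPolynomial (Fin n) K) g
  have hb : (b : Pl n K) ≠ 0 := nonZeroDivisors.coe_ne_zero b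
  have h1 : fr (b : Pl n K) * g = fr a := by
    rw [← h, mul_comm]
    exact IsLocalization.mk'_spec _ _ _
  refine ⟨a, b, ?_, hb, hab, h1⟩
  rintro rfl
  have h2 : fr (0 : Pl n K) = 0 := map_zero _
  rw [h2] at h1
  rcases mul_eq_zero.1 h1 with h3 | h3
  · exact fr_ne hb h3
  · exact hg h3

/-- The curve `P = 0` itself does not occur. -/
private theorem notP {P h a b : Pl n K} {w : RF n K} {ρ : RF n K →ₐ[K] RF n K} (hP : Irreducible P)
    (hpr : Pres ρ (Ideal.span {P})) (hh : ¬ P ∣ h) (hw : w ∈ Ad ρ) (he : fr P * ρ (fr h) = ρ (fr P) * w)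
    (hab : IsRelPrime a b) (hr : fr b * ρ (fr P) = fr a * fr P) : ¬ P ∣ a ∧ ¬ P ∣ b := by
  have hpr' : ∀ H : Pl n K, ∃ E N : Pl n K, ¬ P ∣ E ∧ fr N = fr E * ρ (fr H) ∧ (P ∣ H ↔ P ∣ N) := by
    intro H
    obtain ⟨E, N, hE, h, hN⟩ := hpr H
    rw [Ideal.mem_span_singleton] at hE
    rw [Ideal.mem_span_singleton, Ideal.mem_span_singleton] at hN
    exact ⟨E, N, hE, h, hN⟩
  obtain ⟨E1, N1, hE1, h1, hN1⟩ := hpr' P
  obtain ⟨N1', rfl⟩ := hN1.1 dvd_rfl
  obtain ⟨E2, N2, hE2, h2, hN2⟩ := hpr' h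
  have hN2' : ¬ P ∣ N2 := fun hd => hh (hN2.2 hd)
  obtain ⟨E3, N3, hE3, h3⟩ := rg_Ad hP (ρ := ρ) (fun H => by
    obtain ⟨E, N, hE, hN, -⟩ := hpr' H
    exact ⟨E, N, hE, hN⟩) hw
  have hfP := fr_ne hP.ne_zero
  have e1 : N2 * E1 * E3 = N1' * N3 * E2 := by
    apply fr_inj
    apply mul_left_cancel₀ hfP
    rw [fr_mul, fr_mul, fr_mul, fr_mul, h2, h3]
    rw [fr_mul] at h1
    linear_combination (fr E1 * fr E2 * fr E3) * he - (fr E2 * fr E3 * w) * h1
  have hnd : ∀ {x y : Pl n K}, ¬ P ∣ x → ¬ P ∣ y → ¬ P ∣ x * y := by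
    intro x y hx hy hd
    rcases hP.prime.dvd_or_dvd hd with hd | hd
    exacts [hx hd, hy hd]
  have h4 : ¬ P ∣ N1' := by
    intro hd
    apply hnd (hnd hN2' hE1) hE3
    rw [e1, mul_assoc]
    exact hd.mul_right _
  have e2 : b * N1' = a * E1 := by
    apply fr_inj
    apply mul_left_cancel₀ hfP
    rw [fr_mul, fr_mul]
    rw [fr_mul] at h1
    linear_combination fr b * h1 + fr E1 * hr
  constructor
  · intro hd
    have h5 : P ∣ b * N1' := by
      rw [e2]
      exact hd.mul_right _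
    rcases hP.prime.dvd_or_dvd h5 with h6 | h6
    · exact hP.not_isUnit (hab hd h6)
    · exact h4 h6
  · intro hd
    have h5 : P ∣ a * E1 := by
      rw [← e2]
      exact hd.mul_right _
    rcases hP.prime.dvd_or_dvd h5 with h6 | h6
    · exact hP.not_isUnit (hab h6 hd)
    · exact hE1 h6

end

end TotM

open TotM in
theorem stmtTot : StmtDeg → StmtJacQ → StmtTot := by
  intro hDeg hJac n K _ _ f ρ hf hT P hP hpr L _ _ _ _ _ ρb hρ heq
  obtain ⟨h, w, hh, hw, he⟩ := (hDeg n K ρ P hP hT L ρb hρ).2.2 heq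
  have hfP := fr_ne hP.ne_zero
  have hρP : ρ (fr P) ≠ 0 := by
    rw [Ne, map_eq_zero_iff ρ ρ.injective]
    exact hfP
  obtain ⟨a, b, ha, hb, hab, hr⟩ := reduced (div_ne_zero hρP hfP)
  have hr' : fr b * ρ (fr P) = fr a * fr P := by
    rw [← hr]
    field_simp
  refine ⟨a, b, ha, hb, hr', fun Q hQ hQab => ?_⟩
  by_contra hcon
  have hd : ∀ i, ¬ Q ∣ f.den i := by
    intro i hi
    apply hcon
    apply Dvd.dvd.mul_right
    exact hi.trans (Finset.dvd_prod_of_mem _ (Finset.mem_univ i))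
  obtain ⟨hPa, hPb⟩ := notP hP hpr hh hw he hab hr'
  have hQP : ¬ Q ∣ P := by
    intro hdv
    have h1 : P ∣ Q := (hQ.associated_of_dvd hP hdv).symm.dvd
    rcases hQab with h2 | h2
    · exact hPa (h1.trans h2)
    · exact hPb (h1.trans h2)
  have hrg := rg_image hQ hf hd
  obtain ⟨E, N, hE, h1⟩ := hrg P
  have e1 : b * N = E * a * P := by
    apply fr_inj
    rw [fr_mul, fr_mul, fr_mul, h1]
    linear_combination fr E * hr'
  have hQb : ¬ Q ∣ b := by
    intro hdv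
    have h2 : Q ∣ E * a * P := by
      rw [← e1]
      exact hdv.mul_right _
    rcases hQ.prime.dvd_or_dvd h2 with h3 | h3
    · rcases hQ.prime.dvd_or_dvd h3 with h4 | h4
      · exact hE h4
      · exact hQ.not_isUnit (hab h4 hdv)
    · exact hQP h3
  have hQa : Q ∣ a := hQab.resolve_right hQb
  have hQN : Q ∣ N := by
    have h2 : Q ∣ b * N := by
      rw [e1]
      exact (hQa.mul_left _).mul_right _
    exact (hQ.prime.dvd_or_dvd h2).resolve_left hQb
  obtain ⟨E4, N4, hE4, h4⟩ := hrg h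
  obtain ⟨E5, N5, hE5, h5⟩ := rg_Ad hQ hrg hw
  have e2 : P * N4 * E * E5 = N * N5 * E4 := by
    apply fr_inj
    rw [fr_mul, fr_mul, fr_mul, fr_mul, fr_mul, h1, h4, h5]
    linear_combination (fr E4 * fr E * fr E5) * he
  have hQN4 : Q ∣ N4 := by
    have h2 : Q ∣ P * N4 * E * E5 := by
      rw [e2]
      exact (hQN.mul_right _).mul_right _
    have h3 := (hQ.prime.dvd_or_dvd h2).resolve_right hE5
    have h6 := (hQ.prime.dvd_or_dvd h3).resolve_right hE
    exact (hQ.prime.dvd_or_dvd h6).resolve_left hQP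
  exact hcon (Dvd.dvd.mul_left (hJac n K f ρ hf Q P h hQ hd (relPrime hP hh)
    ⟨E, N, hE, h1, hQN⟩ ⟨E4, N4, hE4, h4, hQN4⟩) _)

end Pool.Agent.Lib.MP_16285c_agN
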