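import Pool.Agent.Lib.MP_16285c_agN.DEG4a.DegP
import Pool.Agent.Lib.MP_16285c_agN.DEG4a.ResF
import Pool.Agent.Lib.MP_16285c_agN.DEG4a.Deg
import Pool.Agent.Lib.MP_16285c_agN.DEG4a.JacQ
import Pool.Agent.Lib.MP_16285c_agN.DEG4a.Tot
import Pool.Agent.Lib.MP_16285c_agN.CAN.Ind
import Pool.Agent.Lib.MP_16285c_agN.CAN.CanB
import Pool.Agent.Lib.MP_16285c_agN.CAN.Can

/-!
# The packages DEG4a and CAN, assembled
-/

set_option autoImplicit false

namespace Pool.Agent.Lib.MP_16285c_agN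

theorem degP_all : StmtDegP := stmtDegP stmtDeg (stmtTot stmtDeg stmtJacQ)

theorem can_all : StmtCan := stmtCan stmtInd stmtCanB

end Pool.Agent.Lib.MP_16285c_agN
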