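import Pool.Agent.Lib.MP_16285c_agN.DEG4a.Spec

/-!
# `StmtDegP` from the statements of the package DEG4a
-/

set_option autoImplicit false

namespace Pool.Agent.Lib.MP_16285c_agN

open Pool.Agent.Lib.MP_16285c_ag

theorem stmtDegP (h2 : StmtDeg) (h3 : StmtTot) : StmtDegP := by
  intro n K _ _ f ρ hf hT P hP hpres L _ _ _ _ _ ρb hρ
  have h := h2 n K ρ P hP hT L ρb hρ
  exact ⟨h.1, h.2.1, fun he => h3 n K f ρ hf hT P hP hpres L ρb hρ (le_antisymm h.2.1 he)⟩

end Pool.Agent.Lib.MP_16285c_agN
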