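import Pool.Agent.Lib.MP_16285c_agN.Defs

/-!
# Package DEG4a for affine `n`-space: the topological degree on a totally invariant hypersurface; package CAN: finitely many
totally invariant hypersurfaces

`A = K[x]`, `E = K(x)`. For an irreducible `Q`, `A_(Q)` is the local ring of the hypersurface `Q = 0`, `L` its residue field. Every
statement has its proof in the docstring.
-/

set_option autoImplicit false

namespace Pool.Agent.Lib.MP_16285c_agN

open Pool.Agent.Lib.MP_16285c_ag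

section

variable {n : ℕ} {K : Type} [Field K]

/-- `g` is regular along the hypersurface `Q = 0`. -/
def Rg (Q : Pl n K) (g : RF n K) : Prop :=
  ∃ E N : Pl n K, ¬ Q ∣ E ∧ fr N = fr E * g

/-- `g` is regular along the hypersurface `Q = 0` and vanishes there. -/
def Dv (Q : Pl n K) (g : RF n K) : Prop :=
  ∃ E N : Pl n K, ¬ Q ∣ E ∧ fr N = fr E * g ∧ Q ∣ N

/-- The polynomials in elements of `A` and of `ρ A`. -/
noncomputable def Ad (ρ : RF n K →ₐ[K] RF n K) : Subalgebra K (RF n K) :=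
  Algebra.adjoin K (Set.range (fun H : Pl n K => fr H) ∪ Set.range (fun H : Pl n K => ρ (fr H)))

end

/-- (D1) PROOF. Existence: if `g * fr E = fr N`, `E ∉ 𝔭`, take the data `E₁ N₁` of `Pres` for `E` and `E₂ N₂` for `N`: `N₁ ∉ 𝔭`, and
`ρ g * fr (E₂ * N₁) = fr (N₂ * E₁)`; so `ρ g` has a residue, and it is `0` if `N ∈ 𝔭` (i.e. if `g` has residue `0`). Every `u : L` is the residue of some
`g`; two choices differ by an element of residue `0`. So `ρb u` = residue of `ρ g` is well defined; residues are unique, additive and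
multiplicative. -/
def StmtResF : Prop :=
  ∀ (n : ℕ) (K : Type) [Field K] (ρ : RF n K →ₐ[K] RF n K) (𝔭 : Ideal (Pl n K)), 𝔭.IsPrime → Pres ρ 𝔭 →
    ∀ (L : Type) [Field L] [Algebra (CR 𝔭) L] [IsFractionRing (CR 𝔭) L] [Algebra K L]
      [IsScalarTower K (CR 𝔭) L], ∃ ρb : L →ₐ[K] L, Rst ρ 𝔭 L ρb

/-- (D2) PROOF. Let `b_1, …, b_m ∈ L` be linearly independent over `ρb L`; multiplying them by a common denominator they are the residues
of polynomials `B_i`. Claim: the `B_i` are linearly independent over `ρ E`. Let `∑ ρ(c_i) B_i = 0`, not all `c_i` zero; clear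
denominators and divide by a power of `P`: `c_i ∈ A`, not all divisible by `P`; residues: `∑ ρb(res c_i) b_i = 0`, a contradiction. So `m ≤ T`.
If `m = T` the `B_i` are a basis of `E` over `ρ E`: `P = ∑ ρ(c_i) B_i`, `c_i = C_i / h` with `h, C_i ∈ A` not all divisible by `P`. Residues of
`ρ(h) P = ∑ ρ(C_i) B_i`: `0 = ∑ ρb(res C_i) b_i`, so all `C_i = P a_i` are divisible by `P`, so `¬ P ∣ h`, and `w = ∑ ρ(a_i) B_i`. -/
def StmtDeg : Prop :=
  ∀ (n : ℕ) (K : Type) [Field K] (ρ : RF n K →ₐ[K] RF n K) (P : Pl n K), Irreducible P → 1 ≤ tp ρ →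
    ∀ (L : Type) [Field L] [Algebra (CR (Ideal.span {P})) L] [IsFractionRing (CR (Ideal.span {P})) L] [Algebra K L]
      [IsScalarTower K (CR (Ideal.span {P})) L] (ρb : L →ₐ[K] L), Rst ρ (Ideal.span {P}) L ρb →
      Module.Finite ρb.fieldRange L ∧ Module.finrank ρb.fieldRange L ≤ tp ρ ∧
      (Module.finrank ρb.fieldRange L = tp ρ →
        ∃ (h : Pl n K) (w : RF n K), ¬ P ∣ h ∧ w ∈ Ad ρ ∧ fr P * ρ (fr h) = ρ (fr P) * w)

/-- (D5) PROOF. `φ : A → L` residue map of `Q`, `a i = φ (num i) / φ (den i)`; the residue of `ρ (fr H)` is `aeval a H`, so `P`, `h` are in the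
kernel of `aeval a`. Suppose `¬ Q ∣ jac f`. For `v ∈ Lⁿ` with `∑ v_j φ(∂_j Q) = 0` the homomorphism `A → L[ε]`, `x_j ↦ φ(x_j) + v_j ε` kills
`Q` and maps `E` to a unit if `¬ Q ∣ E`; so with `u_i = (W v)_i / φ(den i)²`, `W_ij = φ(wj f i j)`: `G(a) = 0 ⇒ G(a + u ε) = 0 ⇒
∑ u_i (∂_i G)(a) = 0`. `det W ≠ 0`, so these `u` form a hyperplane `∑ ℓ_i u_i = 0`, `ℓ ≠ 0` (`∇Q ≠ 0` modulo `Q`, characteristic zero), say
`ℓ_{i₀} ≠ 0`; for `i₁ ≠ i₀` it contains a vector with `u_i = 0` for `i ≠ i₀, i₁` and `u_{i₁} = 1`. So a nonzero polynomial `G` without `x_{i₀}`, of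
minimal degree with `G(a) = 0`, has all derivatives `0`: impossible. So the `a_i`, `i ≠ i₀`, are algebraically independent. Then the kernel of
`aeval a` is generated by one irreducible polynomial `P'` (Gauss) and `P'` divides `P` and `h`. -/
def StmtJacQ : Prop :=
  ∀ (n : ℕ) (K : Type) [Field K] [CharZero K] (f : RM K n) (ρ : RF n K →ₐ[K] RF n K), Of f ρ →
    ∀ Q P h : Pl n K, Irreducible Q → (∀ i, ¬ Q ∣ f.den i) → IsRelPrime P h →
    Dv Q (ρ (fr P)) → Dv Q (ρ (fr h)) → Q ∣ jac f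

/-- (D6) PROOF (uses `StmtDeg`, `StmtJacQ`). `StmtDeg` gives `h, w`. Let `ρ (fr P) / fr P = fr a / fr b` with `a, b` relatively prime (both nonzero as `ρ` is
injective). Let `Q` be irreducible, `Q ∣ a` or `Q ∣ b`, and suppose that `Q` does not divide `dn f`. Then `ρ A ⊆ A_(Q)`
(numbers `num i / den i`), and `w ∈ A_(Q)`. (a) `Q` is not associated to `P`: `v_P(ρ P) ≥ 1` by `Pres`; `1 + v_P(ρ h) = v_P(ρ P) + v_P(w)` and
`v_P(ρ h) = 0` (`Pres`, `¬ P ∣ h`), `v_P(w) ≥ 0`, so `v_P(ρ P) = 1` and `P` divides neither `a` nor `b`. (b) `b ρ(P) = a P`, `ρ(P) ∈ A_(Q)`, `¬ Q ∣ P`: `Q ∣ b`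
would give `Q ∣ a`. So `Q ∣ a`, `ρ(P)` vanishes along `Q`, hence `P ρ(h) = ρ(P) w` and `ρ(h)` do. `P` and `h` are relatively prime. `StmtJacQ`. -/
def StmtTot : Prop :=
  ∀ (n : ℕ) (K : Type) [Field K] [CharZero K] (f : RM K n) (ρ : RF n K →ₐ[K] RF n K), Of f ρ → 1 ≤ tp ρ →
    ∀ P : Pl n K, Irreducible P → Pres ρ (Ideal.span {P}) →
    ∀ (L : Type) [Field L] [Algebra (CR (Ideal.span {P})) L] [IsFractionRing (CR (Ideal.span {P})) L] [Algebra K L]
      [IsScalarTower K (CR (Ideal.span {P})) L] (ρb : L →ₐ[K] L), Rst ρ (Ideal.span {P}) L ρb →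
      Module.finrank ρb.fieldRange L = tp ρ →
      ∃ a b : Pl n K, a ≠ 0 ∧ b ≠ 0 ∧ fr b * ρ (fr P) = fr a * fr P ∧
        ∀ Q : Pl n K, Irreducible Q → (Q ∣ a ∨ Q ∣ b) → Q ∣ dn f * jac f

/-- Degrees on preserved hypersurfaces (`StmtDeg`, `StmtTot`): a hypersurface on which the degree does not drop is totally invariant. -/
def StmtDegP : Prop :=
  ∀ (n : ℕ) (K : Type) [Field K] [CharZero K] (f : RM K n) (ρ : RF n K →ₐ[K] RF n K), Of f ρ → 1 ≤ tp ρ →
    ∀ P : Pl n K, Irreducible P → Pres ρ (Ideal.span {P}) →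
    ∀ (L : Type) [Field L] [Algebra (CR (Ideal.span {P})) L] [IsFractionRing (CR (Ideal.span {P})) L] [Algebra K L]
      [IsScalarTower K (CR (Ideal.span {P})) L] (ρb : L →ₐ[K] L), Rst ρ (Ideal.span {P}) L ρb →
      Module.Finite ρb.fieldRange L ∧ Module.finrank ρb.fieldRange L ≤ tp ρ ∧
      (tp ρ ≤ Module.finrank ρb.fieldRange L → ∃ a b : Pl n K, a ≠ 0 ∧ b ≠ 0 ∧
        fr b * ρ (fr P) = fr a * fr P ∧
        ∀ Q : Pl n K, Irreducible Q → (Q ∣ a ∨ Q ∣ b) → Q ∣ dn f * jac f)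

/-! ## CAN: finitely many totally invariant hypersurfaces -/

/-- (C1) PROOF. Otherwise take a relation `Φ(u) = 0` with the smallest number of monomials; it has two different monomials `α, β` (`u i ≠ 0`).
Apply `ρ` and subtract `c ^ β` times the relation: fewer monomials, so it is zero and `c ^ α = c ^ β`; the quotient `u ^ α / u ^ β` is `ρ`-invariant, so
constant, so `α = β`. -/
def StmtInd : Prop :=
  ∀ (n : ℕ) (K : Type) [Field K] (ρ : RF n K →ₐ[K] RF n K), NoI ρ → ∀ (m : ℕ) (u : Fin m → RF n K) (c : Fin m → K),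
    (∀ i, u i ≠ 0) → (∀ i, ρ (u i) = algebraMap K (RF n K) (c i) * u i) →
    (∀ e : Fin m → ℤ, (∃ c : K, ∏ i, u i ^ e i = algebraMap K (RF n K) c) → e = 0) →
    AlgebraicIndependent K u

/-- (C2) PROOF. `s` = number of the prime factors `Q_1, …, Q_s` of `𝓑` up to associates. The integer vectors `(v_{Q_j}(a i) - v_{Q_j}(b i))_j`, `i : Fin (s+1)`, are
linearly dependent over `ℚ`, so over `ℤ`: `m ≠ 0` with `∑ i, m i (v_{Q_j}(a i) - v_{Q_j}(b i)) = 0` for all `j`. Then `∏ i, (a i / b i) ^ m i` is a quotient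
of two associated polynomials (all their prime factors divide `𝓑`), i.e. a nonzero constant `γ`, and
`ρ (∏ P i ^ m i) = ∏ (a i / b i) ^ m i * ∏ P i ^ m i`. -/
def StmtCanB : Prop :=
  ∀ (n : ℕ) (K : Type) [Field K] (𝓑 : Pl n K), 𝓑 ≠ 0 → ∃ s : ℕ, ∀ (ρ : RF n K →ₐ[K] RF n K)
    (P a b : Fin (s + 1) → Pl n K), (∀ i, P i ≠ 0) → (∀ i, a i ≠ 0) → (∀ i, b i ≠ 0) →
    (∀ i, fr (b i) * ρ (fr (P i)) = fr (a i) * fr (P i)) →
    (∀ i, ∀ Q : Pl n K, Irreducible Q → (Q ∣ a i ∨ Q ∣ b i) → Q ∣ 𝓑) →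
    ∃ m : Fin (s + 1) → ℤ, m ≠ 0 ∧ ∃ γ : K,
      ρ (∏ i, fr (P i) ^ m i) = algebraMap K (RF n K) γ * ∏ i, fr (P i) ^ m i

/-- (C3) PROOF (uses `StmtInd`, `StmtCanB`). If there is no such `Γ` then there are infinitely many pairwise non-associated irreducible `P` with the property
(choose `P_{m+1}` not dividing `Γ = P_0 … P_m`). Take `n + 1` disjoint families of `s + 1` of them; `StmtCanB` gives `u_0, …, u_n`, multiplicatively
independent modulo constants by unique factorisation. By `StmtInd` they are algebraically independent; but the transcendence degree is `n`. -/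
def StmtCan : Prop :=
  ∀ (n : ℕ) (K : Type) [Field K] (ρ : RF n K →ₐ[K] RF n K), NoI ρ → ∀ 𝓑 : Pl n K, 𝓑 ≠ 0 →
    ∃ Γ : Pl n K, Γ ≠ 0 ∧ ∀ P a b : Pl n K, Irreducible P → a ≠ 0 → b ≠ 0 →
      fr b * ρ (fr P) = fr a * fr P →
      (∀ Q : Pl n K, Irreducible Q → (Q ∣ a ∨ Q ∣ b) → Q ∣ 𝓑) → P ∣ Γ

end Pool.Agent.Lib.MP_16285c_agN
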